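import Mathlib

/-! Supercharacter theories, and the supercharacter theory of Andre of the unitriangular groups: definitions. -/

set_option autoImplicit false

namespace Pool.Agent.N865.SC

open Matrix

/-- the set of the complex irreducible characters of a group -/
def Irr (G : Type) [Group G] : Set (G → ℂ) :=
  {χ | ∃ V : FDRep ℂ G, CategoryTheory.Simple V ∧ V.character = χ}

/-- A supercharacter theory of a finite group (Diaconis-Isaacs): a partition `X` of the set of the
irreducible characters and a partition `K` of the group, with the same number of blocks, such that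
`{1}` is a block of `K` and for every block `A` of `X` the function `∑_{ψ ∈ A} ψ(1) ψ` is constant
on every block of `K`. -/
structure SupercharacterTheory (G : Type) [Group G] where
  /-- the partition of the irreducible characters -/
  X : Set (Set (G → ℂ))
  /-- the partition of the group -/
  K : Set (Set G)
  X_nonempty : ∀ A ∈ X, A.Nonempty
  X_sub : ∀ A ∈ X, A ⊆ Irr G
  X_unique : ∀ χ ∈ Irr G, ∃! A, A ∈ X ∧ χ ∈ A
  K_partition : Setoid.IsPartition K
  card_eq : X.ncard = K.ncard
  one_mem : {1} ∈ K
  const : ∀ A ∈ X, ∀ B ∈ K, ∀ g ∈ B, ∀ h ∈ B, ∑ᶠ ψ ∈ A, ψ 1 * ψ g = ∑ᶠ ψ ∈ A, ψ 1 * ψ h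

variable (n : ℕ) (F : Type) [Field F]

/-- the group of the upper unitriangular `n × n` matrices over `F` -/
def U : Subgroup (GL (Fin n) F) where
  carrier := {g | ∀ i j, j ≤ i → (g : Matrix (Fin n) (Fin n) F) i j = (1 : Matrix (Fin n) (Fin n) F) i j}
  one_mem' := by
    intro i j _
    rfl
  mul_mem' := by
    intro a b ha hb i j hij
    rw [Units.val_mul, mul_apply]
    rw [Finset.sum_eq_single i]
    · rw [ha i i le_rfl, hb i j hij, one_apply_eq, one_mul]
    · intro k _ hki
      rcases lt_or_gt_of_ne hki with h | h
      · rw [ha i k h.le, one_apply_ne h.ne', zero_mul]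
      · rw [hb k j (hij.trans h.le), one_apply_ne (hij.trans_lt h).ne', mul_zero]
    · intro h
      exact absurd (Finset.mem_univ i) h
  inv_mem' := by
    intro a ha
    have ht : (a : Matrix (Fin n) (Fin n) F).BlockTriangular id := by
      intro i j hij
      have := ha i j (le_of_lt hij)
      rw [this]
      exact one_apply_ne (ne_of_gt hij)
    have hinv : ((a⁻¹ : GL (Fin n) F) : Matrix (Fin n) (Fin n) F).BlockTriangular id := by
      have : Invertible (a : Matrix (Fin n) (Fin n) F) := (Units.isUnit a).invertible
      rw [coe_units_inv]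
      exact blockTriangular_inv_of_blockTriangular ht
    intro i j hij
    rcases eq_or_lt_of_le hij with h | h
    · subst h
      have h1 : ((a * a⁻¹ : GL (Fin n) F) : Matrix (Fin n) (Fin n) F) j j = 1 := by
        rw [mul_inv_cancel]
        simp
      rw [Units.val_mul, mul_apply, Finset.sum_eq_single j] at h1
      · rw [ha j j le_rfl, one_apply_eq, one_mul] at h1
        rw [h1, one_apply_eq]
      · intro k _ hkj
        rcases lt_or_gt_of_ne hkj with h | h
        · rw [ht h, zero_mul]
        · rw [hinv h, mul_zero]
      · intro h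
        exact absurd (Finset.mem_univ j) h
    · rw [hinv h, one_apply_ne h.ne']

/-- the strictly upper triangular matrices -/
def nn : Submodule F (Matrix (Fin n) (Fin n) F) where
  carrier := {y | ∀ i j, j ≤ i → y i j = 0}
  zero_mem' := by
    intro i j _
    rfl
  add_mem' := by
    intro a b ha hb i j hij
    rw [Matrix.add_apply, ha i j hij, hb i j hij, add_zero]
  smul_mem' := by
    intro c a ha i j hij
    rw [Matrix.smul_apply, ha i j hij, smul_zero]

variable {n F}

/-- the matrix of an element of `U` -/
def mat (g : U n F) : Matrix (Fin n) (Fin n) F := ((g : GL (Fin n) F) : Matrix (Fin n) (Fin n) F)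

/-- the strictly upper triangular matrix `g - 1` -/
def minusOne (g : U n F) : nn n F :=
  ⟨mat g - 1, fun i j hij => by rw [Matrix.sub_apply]; exact sub_eq_zero.mpr (g.2 i j hij)⟩

/-- the superclass `{g ∈ U : g - 1 ∈ U (x - 1) U}` of `x` in the theory of Andre -/
def superclass (x : U n F) : Set (U n F) :=
  {g | ∃ u v : U n F, mat g - 1 = mat u * (mat x - 1) * mat v}

/-- the two-sided orbit `U μ U` of the functional `μ`, where `(u μ v)(y) = μ(u y v)` -/
def orbit (μ : nn n F →ₗ[F] F) : Set (nn n F →ₗ[F] F) :=
  {ν | ∃ u v : U n F, ∀ y z : nn n F,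
    (z : Matrix (Fin n) (Fin n) F) = mat u * (y : Matrix (Fin n) (Fin n) F) * mat v → ν y = μ z}

/-- the sum of `θ(ν(g - 1))` over the functionals `ν` of the two-sided orbit of `μ` -/
noncomputable def orbitSum (θ : AddChar F ℂ) (μ : nn n F →ₗ[F] F) (g : U n F) : ℂ :=
  ∑ᶠ ν ∈ orbit μ, θ (ν (minusOne g))

/-- the functional `y ↦ a * y i j` of the single box `(i, j)` with label `a` -/
def box (i j : Fin n) (a : F) : nn n F →ₗ[F] F where
  toFun y := a * (y : Matrix (Fin n) (Fin n) F) i j
  map_add' y z := by
    simp [mul_add]
  map_smul' c y := by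
    simp [mul_left_comm]

end Pool.Agent.N865.SC
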