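import Mathlib
import Pool.Agent.N865.SC.Defs

/-! The single-box characters separate the superclasses of Andre. -/

set_option autoImplicit false

namespace Pool.Agent.N865.SC

open Matrix

variable {n : ℕ} {F : Type} [Field F]

theorem mat_one : mat (1 : U n F) = 1 := rfl

theorem mat_mul (g h : U n F) : mat (g * h) = mat g * mat h := rfl

theorem mat_inv_mul (g : U n F) : mat g⁻¹ * mat g = 1 := by
  rw [← mat_mul, inv_mul_cancel, mat_one]

theorem mat_mul_inv (g : U n F) : mat g * mat g⁻¹ = 1 := by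
  rw [← mat_mul, mul_inv_cancel, mat_one]

theorem mat_le {g : U n F} {i j : Fin n} (h : j < i) : mat g i j = 0 := by
  have := g.2 i j h.le
  rw [one_apply_ne h.ne'] at this
  exact this

theorem mat_diag (g : U n F) (i : Fin n) : mat g i i = 1 := by
  have := g.2 i i le_rfl
  rw [one_apply_eq] at this
  exact this

/-- two-sided multiplication -/
def tw (u v : U n F) : nn n F →ₗ[F] nn n F where
  toFun y := ⟨mat u * (y : Matrix (Fin n) (Fin n) F) * mat v, by
    intro i j hij
    rw [mul_apply]
    refine Finset.sum_eq_zero fun l _ => ?_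
    rcases lt_or_ge j l with h | h
    · rw [mat_le h, mul_zero]
    · rw [mul_apply]
      rw [Finset.sum_eq_zero, zero_mul]
      intro k _
      rcases lt_or_ge k i with h' | h'
      · rw [mat_le h', zero_mul]
      · rw [y.2 k l (h.trans (hij.trans h')), mul_zero]⟩
  map_add' y z := by
    apply Subtype.ext
    simp [mul_add, add_mul]
  map_smul' c y := by
    apply Subtype.ext
    simp

theorem tw_coe (u v : U n F) (y : nn n F) :
    (tw u v y : Matrix (Fin n) (Fin n) F) = mat u * (y : Matrix (Fin n) (Fin n) F) * mat v := rfl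

theorem tw_tw (u v u' v' : U n F) (y : nn n F) : tw u v (tw u' v' y) = tw (u * u') (v' * v) y := by
  apply Subtype.ext
  simp only [tw_coe, mat_mul, Matrix.mul_assoc]

theorem tw_one (y : nn n F) : tw 1 1 y = y := by
  apply Subtype.ext
  simp [tw_coe, mat_one]

theorem orbit_eq (μ : nn n F →ₗ[F] F) :
    orbit μ = Set.range (fun p : U n F × U n F => μ ∘ₗ tw p.1 p.2) := by
  ext ν
  constructor
  · rintro ⟨u, v, h⟩
    refine ⟨(u, v), ?_⟩
    ext y
    exact (h y (tw u v y) rfl).symm
  · rintro ⟨⟨u, v⟩, rfl⟩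
    refine ⟨u, v, fun y z hz => ?_⟩
    have : z = tw u v y := Subtype.ext hz
    rw [this]
    rfl

section
variable [Fintype (U n F)]

/-- the sum over the pairs -/
noncomputable def S (θ : AddChar F ℂ) (μ : nn n F →ₗ[F] F) (y : nn n F) : ℂ :=
  ∑ p : U n F × U n F, θ (μ (tw p.1 p.2 y))

open Classical in
/-- the stabilizer -/
noncomputable def stab (μ : nn n F →ₗ[F] F) : Finset (U n F × U n F) :=
  Finset.univ.filter fun p => μ ∘ₗ tw p.1 p.2 = μ

open Classical in
theorem card_fiber (μ : nn n F →ₗ[F] F) (q : U n F × U n F) :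
    (Finset.univ.filter fun p : U n F × U n F => μ ∘ₗ tw p.1 p.2 = μ ∘ₗ tw q.1 q.2).card =
      (stab μ).card := by
  refine Finset.card_bij' (fun p _ => (p.1 * q.1⁻¹, q.2⁻¹ * p.2))
    (fun p _ => (p.1 * q.1, q.2 * p.2)) ?_ ?_ ?_ ?_
  · intro p hp
    rw [Finset.mem_filter] at hp
    rw [stab, Finset.mem_filter]
    refine ⟨Finset.mem_univ _, ?_⟩
    ext y
    have h := LinearMap.congr_fun hp.2 (tw q.1⁻¹ q.2⁻¹ y)
    simp only [LinearMap.comp_apply, tw_tw, mul_inv_cancel, inv_mul_cancel, tw_one] at h ⊢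
    exact h
  · intro p hp
    rw [stab, Finset.mem_filter] at hp
    rw [Finset.mem_filter]
    refine ⟨Finset.mem_univ _, ?_⟩
    ext y
    have h := LinearMap.congr_fun hp.2 (tw q.1 q.2 y)
    simp only [LinearMap.comp_apply, tw_tw] at h ⊢
    exact h
  · intro p _
    simp
  · intro p _
    simp

open Classical in
theorem S_eq (θ : AddChar F ℂ) (μ : nn n F →ₗ[F] F) (g : U n F) :
    S θ μ (minusOne g) = ((stab μ).card : ℂ) * orbitSum θ μ g := by
  unfold S orbitSum
  have h1 := Finset.sum_comp (s := (Finset.univ : Finset (U n F × U n F)))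
    (fun ν : nn n F →ₗ[F] F => θ (ν (minusOne g))) (fun p => μ ∘ₗ tw p.1 p.2)
  have h2 : orbit μ = ((Finset.univ : Finset (U n F × U n F)).image
      (fun p => μ ∘ₗ tw p.1 p.2) : Finset (nn n F →ₗ[F] F)) := by
    rw [orbit_eq]
    ext ν
    simp
  rw [h2, finsum_mem_coe_finset, Finset.mul_sum]
  refine h1.trans (Finset.sum_congr rfl fun ν hν => ?_)
  obtain ⟨q, -, rfl⟩ := Finset.mem_image.mp hν
  rw [card_fiber μ q, nsmul_eq_mul]

theorem stab_pos (μ : nn n F →ₗ[F] F) : ((stab μ).card : ℂ) ≠ 0 := by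
  classical
  rw [Nat.cast_ne_zero]
  apply Finset.card_ne_zero_of_mem (a := (1, 1))
  rw [stab, Finset.mem_filter]
  refine ⟨Finset.mem_univ _, ?_⟩
  ext y
  simp [tw_one]

theorem S_tw (θ : AddChar F ℂ) (μ : nn n F →ₗ[F] F) (y : nn n F) (u v : U n F) :
    S θ μ (tw u v y) = S θ μ y := by
  unfold S
  refine Fintype.sum_equiv ((Equiv.mulRight u).prodCongr (Equiv.mulLeft v)) _ _ ?_
  intro p
  rw [tw_tw]
  rfl

theorem orbitSum_one (θ : AddChar F ℂ) (μ : nn n F →ₗ[F] F) : orbitSum θ μ 1 ≠ 0 := by
  intro h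
  have h1 := S_eq θ μ 1
  rw [h, mul_zero] at h1
  have h2 : minusOne (1 : U n F) = 0 := by
    apply Subtype.ext
    show mat (1 : U n F) - 1 = 0
    rw [mat_one, sub_self]
  rw [h2] at h1
  unfold S at h1
  simp at h1

/-- the sum for a box -/
theorem S_box (θ : AddChar F ℂ) (i j : Fin n) (a : F) (y : nn n F) :
    S θ (box i j a) y = ∑ p : U n F × U n F,
      θ (a * ∑ l, ∑ k, mat p.1 i k * (y : Matrix (Fin n) (Fin n) F) k l * mat p.2 l j) := by
  unfold S
  refine Finset.sum_congr rfl fun p _ => ?_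
  congr 1
  show a * (mat p.1 * (y : Matrix (Fin n) (Fin n) F) * mat p.2) i j = _
  congr 1
  rw [mul_apply]
  refine Finset.sum_congr rfl fun l _ => ?_
  rw [mul_apply, Finset.sum_mul]

end

/-- the elementary matrices -/
def el (k l : Fin n) (h : k < l) (c : F) : U n F :=
  ⟨⟨transvection k l c, transvection k l (-c),
    by rw [transvection_mul_transvection_same k l h.ne]; simp,
    by rw [transvection_mul_transvection_same k l h.ne]; simp⟩, by
    intro i j hij
    show transvection k l c i j = _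
    rw [transvection, Matrix.add_apply, Matrix.single_apply_of_ne, add_zero]
    rintro ⟨rfl, rfl⟩
    exact absurd h (not_lt.mpr hij)⟩

theorem mat_el (k l : Fin n) (h : k < l) (c : F) : mat (el k l h c) = transvection k l c := rfl

/-- at most one nonzero entry in each row and in each column -/
def Mono (e : Matrix (Fin n) (Fin n) F) : Prop :=
  ∀ i j k l, e i j ≠ 0 → e k l ≠ 0 → (i = k ∨ j = l) → i = k ∧ j = l

/-- the exponent -/
def ex (p : Fin n × Fin n) : ℕ := (p.1 : ℕ) + (n - (p.2 : ℕ))

open Classical in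
/-- the support -/
noncomputable def supp (e : Matrix (Fin n) (Fin n) F) : Finset (Fin n × Fin n) :=
  Finset.univ.filter fun p => e p.1 p.2 ≠ 0

theorem mem_supp {e : Matrix (Fin n) (Fin n) F} {p : Fin n × Fin n} :
    p ∈ supp e ↔ e p.1 p.2 ≠ 0 := by
  classical
  simp [supp]

/-- the weight -/
noncomputable def W (e : Matrix (Fin n) (Fin n) F) : ℕ := ∑ p ∈ supp e, 2 ^ ex p

theorem W_lt {e e' : Matrix (Fin n) (Fin n) F} {p : Fin n × Fin n} {R : Finset (Fin n × Fin n)}
    (hp : p ∈ supp e) (h : ∀ q ∈ supp e', (q ∈ supp e ∧ q ≠ p) ∨ q ∈ R)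
    (hR : Set.InjOn ex (R : Set (Fin n × Fin n))) (hR' : ∀ q ∈ R, ex q < ex p) : W e' < W e := by
  classical
  have h1 : W e' ≤ ∑ q ∈ (supp e).erase p ∪ R, 2 ^ ex q := by
    unfold W
    apply Finset.sum_le_sum_of_subset
    intro q hq
    rw [Finset.mem_union, Finset.mem_erase]
    rcases h q hq with h | h
    · exact Or.inl ⟨h.2, h.1⟩
    · exact Or.inr h
  have h2 : ∑ q ∈ (supp e).erase p ∪ R, 2 ^ ex q ≤
      ∑ q ∈ (supp e).erase p, 2 ^ ex q + ∑ q ∈ R, 2 ^ ex q := by
    rw [← Finset.sum_union_inter]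
    exact Nat.le_add_right _ _
  have h3 : ∑ q ∈ R, 2 ^ ex q < 2 ^ ex p := by
    rw [← Finset.sum_image (f := fun m => 2 ^ m) hR]
    apply Nat.geomSum_lt le_rfl
    intro k hk
    obtain ⟨q, hq, rfl⟩ := Finset.mem_image.mp hk
    exact hR' q hq
  have h4 : ∑ q ∈ (supp e).erase p, 2 ^ ex q + 2 ^ ex p = W e := by
    unfold W
    exact Finset.sum_erase_add _ _ hp
  omega

theorem W_col {e : Matrix (Fin n) (Fin n) F} {i j l : Fin n} (hjl : j < l) (h1 : e i j ≠ 0)
    (h2 : e i l ≠ 0) (h3 : ∀ k, i < k → e k j = 0) :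
    W (e * transvection j l (-(e i l) / e i j)) < W e := by
  classical
  refine W_lt (p := (i, l)) (R := Finset.univ.filter fun q : Fin n × Fin n => q.1 < i ∧ q.2 = l)
    (mem_supp.mpr h2) ?_ ?_ ?_
  · rintro ⟨a, b⟩ hq
    rw [mem_supp] at hq
    by_cases hb : b = l
    · subst hb
      rw [mul_transvection_apply_same] at hq
      rcases lt_trichotomy a i with h | h | h
      · right
        simp [h]
      · exfalso
        subst h
        apply hq
        field_simp
        ring
      · left
        rw [h3 a h, mul_zero, add_zero] at hq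
        refine ⟨mem_supp.mpr hq, ?_⟩
        intro hh
        exact absurd (Prod.mk.inj hh).1 h.ne'
    · left
      rw [mul_transvection_apply_of_ne _ _ _ _ hb] at hq
      refine ⟨mem_supp.mpr hq, ?_⟩
      intro hh
      exact hb (Prod.mk.inj hh).2
  · rintro ⟨a, b⟩ ha ⟨c, d⟩ hc hh
    simp only [Finset.coe_filter, Finset.mem_univ, true_and, Set.mem_ofPred_eq] at ha hc
    obtain ⟨ha1, rfl⟩ := ha
    obtain ⟨hc1, rfl⟩ := hc
    simp only [ex] at hh
    rw [Prod.mk.injEq]
    exact ⟨Fin.ext (by omega), rfl⟩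
  · rintro ⟨a, b⟩ ha
    simp only [Finset.mem_filter, Finset.mem_univ, true_and] at ha
    obtain ⟨ha1, rfl⟩ := ha
    simp only [ex]
    have : (a : ℕ) < i := ha1
    omega

theorem W_row {e : Matrix (Fin n) (Fin n) F} {i j k : Fin n} (hki : k < i) (h1 : e i j ≠ 0)
    (h2 : e k j ≠ 0) (h3 : ∀ l, l < j → e i l = 0) :
    W (transvection k i (-(e k j) / e i j) * e) < W e := by
  classical
  refine W_lt (p := (k, j)) (R := Finset.univ.filter fun q : Fin n × Fin n => q.1 = k ∧ j < q.2)
    (mem_supp.mpr h2) ?_ ?_ ?_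
  · rintro ⟨a, b⟩ hq
    rw [mem_supp] at hq
    by_cases ha : a = k
    · subst ha
      rw [transvection_mul_apply_same] at hq
      rcases lt_trichotomy b j with h | h | h
      · left
        rw [h3 b h, mul_zero, add_zero] at hq
        refine ⟨mem_supp.mpr hq, ?_⟩
        intro hh
        exact absurd (Prod.mk.inj hh).2 h.ne
      · exfalso
        subst h
        apply hq
        field_simp
        ring
      · right
        simp [h]
    · left
      rw [transvection_mul_apply_of_ne _ _ _ _ ha] at hq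
      refine ⟨mem_supp.mpr hq, ?_⟩
      intro hh
      exact ha (Prod.mk.inj hh).1
  · rintro ⟨a, b⟩ ha ⟨c, d⟩ hc hh
    simp only [Finset.coe_filter, Finset.mem_univ, true_and, Set.mem_ofPred_eq] at ha hc
    obtain ⟨rfl, ha1⟩ := ha
    obtain ⟨rfl, hc1⟩ := hc
    simp only [ex] at hh
    rw [Prod.mk.injEq]
    refine ⟨rfl, Fin.ext ?_⟩
    have := b.2
    have := d.2
    omega
  · rintro ⟨a, b⟩ ha
    simp only [Finset.mem_filter, Finset.mem_univ, true_and] at ha
    obtain ⟨rfl, ha1⟩ := ha
    simp only [ex]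
    have : (j : ℕ) < b := ha1
    have := b.2
    omega

theorem exists_mono (y : nn n F) : ∃ u v : U n F, Mono (tw u v y : Matrix (Fin n) (Fin n) F) := by
  classical
  let P : ℕ → Prop := fun m => ∃ u v : U n F, W (tw u v y : Matrix (Fin n) (Fin n) F) = m
  have hP : ∃ m, P m := ⟨_, 1, 1, rfl⟩
  obtain ⟨u, v, huv⟩ := Nat.find_spec hP
  have hmin : ∀ u' v' : U n F, W (tw u v y : Matrix (Fin n) (Fin n) F) ≤
      W (tw u' v' (tw u v y) : Matrix (Fin n) (Fin n) F) := by
    intro u' v'
    rw [huv]
    apply Nat.find_min' hP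
    exact ⟨u' * u, v * v', by rw [tw_tw]⟩
  refine ⟨u, v, ?_⟩
  clear huv
  generalize tw u v y = e at hmin ⊢
  by_contra hm
  -- bad entries
  let bad : Finset (Fin n × Fin n) := (supp (e : Matrix (Fin n) (Fin n) F)).filter fun p =>
    (∃ j, j < p.2 ∧ (e : Matrix (Fin n) (Fin n) F) p.1 j ≠ 0) ∨
    (∃ i, p.1 < i ∧ (e : Matrix (Fin n) (Fin n) F) i p.2 ≠ 0)
  have hbad : bad.Nonempty := by
    unfold Mono at hm
    push Not at hm
    obtain ⟨i, j, k, l, h1, h2, h3, h4⟩ := hm
    rcases h3 with rfl | rfl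
    · have hjl := h4 rfl
      rcases lt_or_gt_of_ne hjl with h | h
      · exact ⟨(i, l), Finset.mem_filter.mpr ⟨mem_supp.mpr h2, Or.inl ⟨j, h, h1⟩⟩⟩
      · exact ⟨(i, j), Finset.mem_filter.mpr ⟨mem_supp.mpr h1, Or.inl ⟨l, h, h2⟩⟩⟩
    · have hik : i ≠ k := fun h => h4 h rfl
      rcases lt_or_gt_of_ne hik with h | h
      · exact ⟨(i, j), Finset.mem_filter.mpr ⟨mem_supp.mpr h1, Or.inr ⟨k, h, h2⟩⟩⟩
      · exact ⟨(k, j), Finset.mem_filter.mpr ⟨mem_supp.mpr h2, Or.inr ⟨i, h, h1⟩⟩⟩
  obtain ⟨⟨k, l⟩, hp, hmax⟩ := Finset.exists_max_image bad ex hbad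
  rw [Finset.mem_filter] at hp
  obtain ⟨hp0, hp1⟩ := hp
  rw [mem_supp] at hp0
  simp only at hp0 hp1
  rcases hp1 with ⟨j0, hj0, hj0'⟩ | ⟨i0, hi0, hi0'⟩
  · -- leftmost entry of the row
    let s : Finset (Fin n) := Finset.univ.filter fun j =>
      (e : Matrix (Fin n) (Fin n) F) k j ≠ 0
    have hs : s.Nonempty := ⟨j0, by simpa [s] using hj0'⟩
    have hj1 := Finset.min'_mem s hs
    have hj2 : s.min' hs ≤ j0 := Finset.min'_le s j0 (by simpa [s] using hj0')
    set j := s.min' hs with hj
    have hkj : (e : Matrix (Fin n) (Fin n) F) k j ≠ 0 := by simpa [s] using hj1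
    have hjl : j < l := hj2.trans_lt hj0
    have hlow : ∀ i, k < i → (e : Matrix (Fin n) (Fin n) F) i j = 0 := by
      intro i hi
      by_contra h
      have hb : (k, j) ∈ bad := Finset.mem_filter.mpr ⟨mem_supp.mpr hkj, Or.inr ⟨i, hi, h⟩⟩
      have := hmax _ hb
      simp only [ex] at this
      have h1 : (j : ℕ) < l := hjl
      have h2 := l.2
      omega
    have h1 := W_col hjl hkj hp0 hlow
    have h2 := hmin 1 (el j l hjl (-((e : Matrix (Fin n) (Fin n) F) k l) /
      (e : Matrix (Fin n) (Fin n) F) k j))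
    rw [tw_coe, mat_one, mat_el, Matrix.one_mul] at h2
    omega
  · let s : Finset (Fin n) := Finset.univ.filter fun i =>
      (e : Matrix (Fin n) (Fin n) F) i l ≠ 0
    have hs : s.Nonempty := ⟨i0, by simpa [s] using hi0'⟩
    have hi1 := Finset.max'_mem s hs
    have hi2 : i0 ≤ s.max' hs := Finset.le_max' s i0 (by simpa [s] using hi0')
    set i := s.max' hs with hi
    have hil : (e : Matrix (Fin n) (Fin n) F) i l ≠ 0 := by simpa [s] using hi1
    have hki : k < i := hi0.trans_le hi2
    have hleft : ∀ j, j < l → (e : Matrix (Fin n) (Fin n) F) i j = 0 := by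
      intro j hj
      by_contra h
      have hb : (i, l) ∈ bad := Finset.mem_filter.mpr ⟨mem_supp.mpr hil, Or.inl ⟨j, hj, h⟩⟩
      have := hmax _ hb
      simp only [ex] at this
      have h1 : (k : ℕ) < i := hki
      omega
    have h1 := W_row hki hil hp0 hleft
    have h2 := hmin (el k i hki (-((e : Matrix (Fin n) (Fin n) F) k l) /
      (e : Matrix (Fin n) (Fin n) F) i l)) 1
    rw [tw_coe, mat_one, mat_el, Matrix.mul_one] at h2
    omega

section
variable [Fintype (U n F)]

theorem sum_lin (θ : AddChar F ℂ) (i : Fin n) (c : Fin n → F) (hc : ∃ k, i < k ∧ c k ≠ 0)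
    (hθ : θ ≠ 1) : ∑ u : U n F, θ (∑ k, c k * mat u i k) = 0 := by
  obtain ⟨k, hik, hk⟩ := hc
  obtain ⟨x, hx⟩ : ∃ x, θ x ≠ 1 := by
    by_contra h
    push Not at h
    apply hθ
    ext x
    rw [h x, AddChar.one_apply]
  set t := x / c k with ht
  have h1 : ∑ u : U n F, θ (∑ m, c m * mat u i m) =
      ∑ u : U n F, θ (∑ m, c m * mat (u * el i k hik t) i m) :=
    (Fintype.sum_equiv (Equiv.mulRight (el i k hik t)) _ _ fun u => rfl).symm
  have h2 : ∀ u : U n F, ∑ m, c m * mat (u * el i k hik t) i m = x + ∑ m, c m * mat u i m := by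
    intro u
    rw [← Finset.add_sum_erase Finset.univ (fun m => c m * mat (u * el i k hik t) i m)
        (Finset.mem_univ k),
      ← Finset.add_sum_erase Finset.univ (fun m => c m * mat u i m) (Finset.mem_univ k), mat_mul,
      mat_el, mul_transvection_apply_same, mat_diag]
    have h3 : ∀ m ∈ Finset.univ.erase k, c m * (mat u * transvection i k t) i m = c m * mat u i m := by
      intro m hm
      rw [mul_transvection_apply_of_ne _ _ _ _ (Finset.ne_of_mem_erase hm)]
    rw [Finset.sum_congr rfl h3]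
    have h4 : c k * t = x := by
      rw [ht]
      field_simp
    linear_combination h4
  have h5 : ∑ u : U n F, θ (∑ m, c m * mat u i m) = θ x * ∑ u : U n F, θ (∑ m, c m * mat u i m) := by
    conv_lhs => rw [h1]
    rw [Finset.mul_sum]
    refine Finset.sum_congr rfl fun u _ => ?_
    rw [h2, AddChar.map_add_eq_mul]
  have h6 : (1 - θ x) * ∑ u : U n F, θ (∑ m, c m * mat u i m) = 0 := by
    linear_combination h5
  rcases mul_eq_zero.mp h6 with h | h
  · exact absurd (sub_eq_zero.mp h).symm hx
  · exact h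

/-- the common factor -/
noncomputable def TT (θ : AddChar F ℂ) (i j : Fin n) (a : F) (e : Matrix (Fin n) (Fin n) F) : ℂ :=
  ∑ p : U n F × U n F, θ (∑ k, (if i < k then a * ∑ l, (if l < j then e k l * mat p.2 l j else 0) else 0) *
    mat p.1 i k)

theorem TT_ne (θ : AddChar F ℂ) (hθ : θ ≠ 1) (i j : Fin n) (a : F) (e : Matrix (Fin n) (Fin n) F) :
    TT θ i j a e ≠ 0 := by
  classical
  unfold TT
  rw [Fintype.sum_prod_type_right]
  have h1 : ∀ v : U n F, ∃ m : ℕ, (v = 1 → 0 < m) ∧ ∑ u : U n F, θ (∑ k, (if i < k then a * ∑ l,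
      (if l < j then e k l * mat v l j else 0) else 0) * mat u i k) = (m : ℂ) := by
    intro v
    by_cases h : ∃ k, i < k ∧ (if i < k then a * ∑ l,
      (if l < j then e k l * mat v l j else 0) else 0) ≠ 0
    · refine ⟨0, ?_, ?_⟩
      · rintro rfl
        exfalso
        obtain ⟨k, hik, hk⟩ := h
        apply hk
        rw [if_pos hik]
        rw [Finset.sum_eq_zero, mul_zero]
        intro l _
        split_ifs with hl
        · rw [mat_one, one_apply_ne hl.ne, mul_zero]
        · rfl
      · rw [sum_lin θ i _ h hθ]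
        simp
    · push Not at h
      refine ⟨Fintype.card (U n F), fun _ => Fintype.card_pos, ?_⟩
      have h2 : ∀ u : U n F, ∑ k, (if i < k then a * ∑ l,
        (if l < j then e k l * mat v l j else 0) else 0) * mat u i k = 0 := by
        intro u
        refine Finset.sum_eq_zero fun k _ => ?_
        by_cases hk : i < k
        · rw [h k hk, zero_mul]
        · rw [if_neg hk, zero_mul]
      simp only [h2]
      simp
  choose m hm1 hm2 using h1
  simp only [hm2]
  rw [← Nat.cast_sum, Nat.cast_ne_zero]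
  have := Finset.single_le_sum (f := m) (fun _ _ => Nat.zero_le _) (Finset.mem_univ (1 : U n F))
  have h3 := hm1 1 rfl
  omega

theorem S_mono (θ : AddChar F ℂ) (i j : Fin n) (hij : i < j) (a : F) (y : nn n F)
    (h1 : ∀ l, l < j → (y : Matrix (Fin n) (Fin n) F) i l = 0)
    (h2 : ∀ k, i < k → (y : Matrix (Fin n) (Fin n) F) k j = 0) :
    S θ (box i j a) y = θ (a * (y : Matrix (Fin n) (Fin n) F) i j) * TT θ i j a y := by
  classical
  rw [S_box]
  unfold TT
  rw [Finset.mul_sum]
  refine Finset.sum_congr rfl fun p _ => ?_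
  rw [← AddChar.map_add_eq_mul]
  congr 1
  set e := (y : Matrix (Fin n) (Fin n) F) with he
  rw [Finset.sum_comm]
  -- the row `i`
  have key : ∀ k, ∑ l, mat p.1 i k * e k l * mat p.2 l j =
      (if k = i then e i j else 0) + (if i < k then ∑ l, (if l < j then e k l * mat p.2 l j else 0) else 0) *
        mat p.1 i k := by
    intro k
    rcases lt_trichotomy k i with h | h | h
    · rw [if_neg h.ne, if_neg (not_lt.mpr h.le), zero_mul, add_zero]
      refine Finset.sum_eq_zero fun l _ => ?_
      rw [mat_le h, zero_mul, zero_mul]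
    · subst h
      rw [if_pos rfl, if_neg (lt_irrefl _), zero_mul, add_zero, Finset.sum_eq_single j]
      · rw [mat_diag, mat_diag]
        ring
      · intro l _ hlj
        rcases lt_or_gt_of_ne hlj with h | h
        · rw [h1 l h, mul_zero, zero_mul]
        · rw [mat_le h, mul_zero]
      · intro h
        exact absurd (Finset.mem_univ _) h
    · rw [if_neg h.ne', if_pos h, zero_add, Finset.sum_mul]
      refine Finset.sum_congr rfl fun l _ => ?_
      by_cases hl : l < j
      · rw [if_pos hl]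
        ring
      · rw [if_neg hl, zero_mul]
        rcases eq_or_lt_of_le (not_lt.mp hl) with h' | h'
        · rw [← h', h2 k h, mul_zero, zero_mul]
        · rw [mat_le h', mul_zero]
  rw [Finset.sum_congr rfl fun k _ => key k, Finset.sum_add_distrib, Finset.sum_ite_eq' Finset.univ i,
    if_pos (Finset.mem_univ _), mul_add, Finset.mul_sum]
  congr 1
  refine Finset.sum_congr rfl fun k _ => ?_
  split_ifs
  · ring
  · ring

theorem TT_congr (θ : AddChar F ℂ) (i j : Fin n) (a : F) {e e' : Matrix (Fin n) (Fin n) F}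
    (h : ∀ k l, i < k → l < j → e k l = e' k l) : TT θ i j a e = TT θ i j a e' := by
  classical
  unfold TT
  refine Finset.sum_congr rfl fun p _ => ?_
  congr 1
  refine Finset.sum_congr rfl fun k _ => ?_
  congr 1
  split_ifs with hk
  · congr 1
    refine Finset.sum_congr rfl fun l _ => ?_
    split_ifs with hl
    · rw [h k l hk hl]
    · rfl
  · rfl

theorem mono_eq (θ : AddChar F ℂ) (hθ : θ ≠ 1) {y z : nn n F}
    (hy : Mono (y : Matrix (Fin n) (Fin n) F)) (hz : Mono (z : Matrix (Fin n) (Fin n) F))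
    (h : ∀ i j, i < j → ∀ a, a ≠ 0 → S θ (box i j a) y = S θ (box i j a) z) : y = z := by
  have key : ∀ m : ℕ, ∀ i j : Fin n, (n - (i : ℕ)) + (j : ℕ) ≤ m →
      (y : Matrix (Fin n) (Fin n) F) i j = (z : Matrix (Fin n) (Fin n) F) i j := by
    intro m
    induction m with
    | zero =>
      intro i j hm
      have := i.2
      omega
    | succ m ih =>
      intro i j hm
      by_cases hij : i < j
      swap
      · rw [y.2 i j (not_lt.mp hij), z.2 i j (not_lt.mp hij)]
      have hrow : ∀ l, l < j → (y : Matrix (Fin n) (Fin n) F) i l =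
          (z : Matrix (Fin n) (Fin n) F) i l := by
        intro l hl
        apply ih
        have : (l : ℕ) < j := hl
        omega
      have hcol : ∀ k, i < k → (y : Matrix (Fin n) (Fin n) F) k j =
          (z : Matrix (Fin n) (Fin n) F) k j := by
        intro k hk
        apply ih
        have : (i : ℕ) < k := hk
        have := k.2
        omega
      have hbox : ∀ k l, i < k → l < j → (y : Matrix (Fin n) (Fin n) F) k l =
          (z : Matrix (Fin n) (Fin n) F) k l := by
        intro k l hk hl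
        apply ih
        have : (i : ℕ) < k := hk
        have : (l : ℕ) < j := hl
        have := k.2
        omega
      by_cases h1 : ∀ l, l < j → (y : Matrix (Fin n) (Fin n) F) i l = 0
      swap
      · push Not at h1
        obtain ⟨l, hl, hl0⟩ := h1
        have e1 : (y : Matrix (Fin n) (Fin n) F) i j = 0 := by
          by_contra hh
          exact hl.ne (hy i l i j hl0 hh (Or.inl rfl)).2
        have e2 : (z : Matrix (Fin n) (Fin n) F) i j = 0 := by
          by_contra hh
          exact hl.ne (hz i l i j (hrow l hl ▸ hl0) hh (Or.inl rfl)).2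
        rw [e1, e2]
      by_cases h2 : ∀ k, i < k → (y : Matrix (Fin n) (Fin n) F) k j = 0
      swap
      · push Not at h2
        obtain ⟨k, hk, hk0⟩ := h2
        have e1 : (y : Matrix (Fin n) (Fin n) F) i j = 0 := by
          by_contra hh
          exact hk.ne' (hy k j i j hk0 hh (Or.inr rfl)).1
        have e2 : (z : Matrix (Fin n) (Fin n) F) i j = 0 := by
          by_contra hh
          exact hk.ne' (hz k j i j (hcol k hk ▸ hk0) hh (Or.inr rfl)).1
        rw [e1, e2]
      have h1' : ∀ l, l < j → (z : Matrix (Fin n) (Fin n) F) i l = 0 := fun l hl => by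
        rw [← hrow l hl, h1 l hl]
      have h2' : ∀ k, i < k → (z : Matrix (Fin n) (Fin n) F) k j = 0 := fun k hk => by
        rw [← hcol k hk, h2 k hk]
      have hS : ∀ a : F, a ≠ 0 → θ (a * (y : Matrix (Fin n) (Fin n) F) i j) =
          θ (a * (z : Matrix (Fin n) (Fin n) F) i j) := by
        intro a ha
        have h3 := h i j hij a ha
        rw [S_mono θ i j hij a y h1 h2, S_mono θ i j hij a z h1' h2', TT_congr θ i j a hbox] at h3
        exact mul_right_cancel₀ (TT_ne θ hθ i j a _) h3
      by_contra hne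
      apply hθ
      ext x
      rw [AddChar.one_apply]
      set d := (y : Matrix (Fin n) (Fin n) F) i j - (z : Matrix (Fin n) (Fin n) F) i j with hd
      have hd0 : d ≠ 0 := sub_ne_zero.mpr hne
      by_cases hx : x = 0
      · rw [hx, AddChar.map_zero_eq_one]
      · have h4 := hS (x / d) (div_ne_zero hx hd0)
        have h5 : x = x / d * (y : Matrix (Fin n) (Fin n) F) i j +
            -(x / d * (z : Matrix (Fin n) (Fin n) F) i j) := by
          rw [← sub_eq_add_neg, ← mul_sub, ← hd]
          field_simp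
        rw [h5, AddChar.map_add_eq_mul, h4, ← AddChar.map_add_eq_mul, add_neg_cancel,
          AddChar.map_zero_eq_one]
  apply Subtype.ext
  ext i j
  exact key _ i j le_rfl

end

theorem mem_superclass {x g : U n F} {u v : U n F} (h : minusOne g = tw u v (minusOne x)) :
    g ∈ superclass x :=
  ⟨u, v, congrArg Subtype.val h⟩

theorem separate [Finite F] (θ : AddChar F ℂ) (hθ : θ ≠ 1) {x g : U n F}
    (h : ∀ i j : Fin n, i < j → ∀ a : F, a ≠ 0 → orbitSum θ (box i j a) x = orbitSum θ (box i j a) g) :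
    g ∈ superclass x := by
  have := Fintype.ofFinite F
  have := Fintype.ofFinite (U n F)
  obtain ⟨u, v, h1⟩ := exists_mono (minusOne x)
  obtain ⟨u', v', h2⟩ := exists_mono (minusOne g)
  have h3 : tw u v (minusOne x) = tw u' v' (minusOne g) := by
    refine mono_eq θ hθ h1 h2 fun i j hij a ha => ?_
    rw [S_tw, S_tw, S_eq, S_eq, h i j hij a ha]
  apply mem_superclass (u := u'⁻¹ * u) (v := v * v'⁻¹)
  rw [← tw_tw, h3, tw_tw, inv_mul_cancel, mul_inv_cancel, tw_one]

end Pool.Agent.N865.SC
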